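import Pool.Agent.H408BCM.V
import Pool.Agent.H408BCM.TNG
import Pool.Agent.H408BCM.TC
import Pool.Agent.H408BCM.T_helper407
import Pool.Agent.H235R3.BCM.TaskS
import Pool.Agent.H408BCM.TaskL
import Pool.Agent.H730R5.BCM.U

/-!
# MP_ab10b5_ag: big Cohen-Macaulay algebras do not pass to approximations modulo `p`

`R(k) = k[x,y]_{(x,y)}` and, for `n = 4m+3` and `w ≥ 1` with `6w < n`,
`S(k) = R(k)[z,a,b,c]/(z^n - (x^n+y^n), x^(3w) y^(3w) - (a x^(4w) + b y^(4w) + c z^(4w)))`.
All the relations have integer coefficients, so `R(F)` and `S(F)`, `F` an algebraic closure of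
`F_p`, are the approximations of `R(ℂ)` and `S(ℂ)` (for every ultrafilter and every choice of the
isomorphism of `ℂ` with the ultraproduct).

(1) there is a big Cohen-Macaulay `R(ℂ)`-algebra `B` with a homomorphism `S(ℂ) → B`;
(2) for every prime `p` with `w p ≡ m+1 mod n` and every field `k` of characteristic `p` there is
no big Cohen-Macaulay `R(k)`-algebra with a homomorphism from `S(k)`;
(3) so Question 1 has a negative answer for every ultrafilter on the primes that contains
`{p : w p ≡ m+1 mod n}` for one such pair;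
(4) these sets are infinite, there are non-principal ultrafilters containing them.
-/

namespace Pool.Agent.Results.MP_ab10b5_ag.ApproxFails

open Pool.Agent.H408BCM Pool.Agent.H408BCM.V

theorem result (m w : ℕ) (hw : 6 * w < 4 * m + 3) (hco : Nat.Coprime w (4 * m + 3)) :
    Maps m w ℂ ∧
    (∀ p : ℕ, p.Prime → Bad m w p → ∀ (k : Type) [Field k] [CharP k p], ¬ Maps m w k) ∧
    (∀ U : Ultrafilter Nat.Primes, AlmostAllBad U m w → ¬ AlmostAllMaps U m w) ∧
    (∃ U : Ultrafilter Nat.Primes, (U : Filter Nat.Primes) ≤ Filter.cofinite ∧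
      AlmostAllBad U m w) := by
  have hN : FG.TaskNG := fun n w k p h1 h2 h3 B _ _ x y z a b c h4 h5 =>
    Pool.Agent.H408BCM.taskNG n w k p h1 h2 h3 B x y z a b c h4 h5
  have hS : TaskS := Pool.Agent.H235R3.BCM.taskS
  have hC : TaskC := Pool.Agent.H408BCM.taskC
  have hT : TaskT := Pool.Agent.H408BCM.TH407.taskT
  have hL : TaskL := Pool.Agent.H408BCM.taskL
  have hU : TaskU := Pool.Agent.H730R5.BCM.taskU
  exact ⟨(maps_iff m w ℂ).2 (FG.pos_part hS hC hT hL hU m w hw hco),
    fun p hp hpw k _ _ h => FG.neg_mod hN hS hC m w hw p hp hpw k ((maps_iff m w k).1 h),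
    fun U hU' h => FG.neg_ultra hN hS hC m w hw U hU' h, FG.ex_ultra m w hco⟩

end Pool.Agent.Results.MP_ab10b5_ag.ApproxFails
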